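import Pool.Agent.H27Dual.Main

/-!
# Strong duality for the integer Chebyshev constant of `[0,1]`

* `H27Cheb.mZ n` is `m_n = inf ‖p‖_{[0,1]}^{1/n}` over the nonzero integer polynomials `p` of degree
  at most `n`; its limit `t` is the integer Chebyshev constant `t_ℤ([0,1])`;
* `TotIrr q`: `q` is irreducible in `ℤ[x]`, of positive degree, and all complex zeros of `q` lie in
  `[0,1]`;
* `leadRoot q = |a|^{1/d}` for `q` of degree `d` with leading coefficient `a`.

The number `1 / t_ℤ([0,1])` is the smallest limit point of the numbers `|a|^{1/d}` of these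
polynomials (conjecture of Montgomery for the interval `[0,1]`).
-/

open Polynomial Filter Topology

namespace Pool.Agent.Results.MP_0703d8_nt.Duality

open H27Cheb Pool.Agent.H27Dual

theorem result : ∃ t : ℝ, Tendsto mZ atTop (𝓝 t) ∧ 0 < t ∧
    (∀ s : ℝ, s < 1 / t → {q : ℤ[X] | TotIrr q ∧ leadRoot q ≤ s}.Finite) ∧
    ∀ s : ℝ, 1 / t < s → ∀ K : ℕ, ∃ q : ℤ[X], TotIrr q ∧ K ≤ q.natDegree ∧ leadRoot q < s := by
  obtain ⟨t, ht, h0, -, h1, h2⟩ := duality
  exact ⟨t, ht, h0, h1, h2⟩

end Pool.Agent.Results.MP_0703d8_nt.Duality
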