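import Pool.Agent.H27Cheb.LowerFinal

/-!
# A lower bound for the integer Chebyshev constant of `[0,1]`

* `H27Cheb.supNorm01 p` is `‖p‖_{[0,1]} = sup_{x ∈ [0,1]} |p(x)|`;
* `H27Cheb.mZ n` is `m_n = inf ‖p‖_{[0,1]}^{1/n}` over the nonzero integer polynomials `p` of
  degree at most `n`.

We prove that every nonzero integer polynomial of degree at most `n` has
`‖p‖_{[0,1]} ≥ 0.422309^n`, hence `m_n ≥ 0.422309` for all `n ≥ 1` and `t_ℤ([0,1]) ≥ 0.422309`.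
-/

open Polynomial Filter Topology

namespace Pool.Agent.Results.MP_0703d8_nt.LowerBound

open H27Cheb

theorem result :
    (∀ n : ℕ, ∀ p : ℤ[X], p ≠ 0 → p.natDegree ≤ n → (0.422309 : ℝ) ^ n ≤ supNorm01 p) ∧
    (∀ n : ℕ, 1 ≤ n → (0.422309 : ℝ) ≤ mZ n) ∧
    ∃ t : ℝ, Tendsto mZ atTop (𝓝 t) ∧ (0.422309 : ℝ) ≤ t ∧ ∀ n : ℕ, 1 ≤ n → t ≤ mZ n := by
  have e : (0.422309 : ℝ) = 422309 / 1000000 := by norm_num
  have h1 : ∀ n : ℕ, ∀ p : ℤ[X], p ≠ 0 → p.natDegree ≤ n → (0.422309 : ℝ) ^ n ≤ supNorm01 p := by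
    intro n p hp hn
    rw [e]; exact lower13 p hp n hn
  have h2 : ∀ n : ℕ, 1 ≤ n → (0.422309 : ℝ) ≤ mZ n := by
    intro n hn
    exact le_mZ_of_pow (by norm_num) (fun p hp k hk => h1 k p hp hk) hn
  exact ⟨h1, h2, exists_tendsto_mZ (by norm_num) h2⟩

end Pool.Agent.Results.MP_0703d8_nt.LowerBound
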