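import Pool.Agent.H27Cheb.LowerFinal
import Pool.Agent.H27Cheb.UFinal
import Pool.Agent.H27Cheb.UChk2
import Pool.Agent.H27Cheb.UChk3

/-!
# An upper bound for the integer Chebyshev constant of `[0,1]`

* `H27Cheb.supNorm01 p` is `‖p‖_{[0,1]} = sup_{x ∈ [0,1]} |p(x)|`;
* `H27Cheb.mZ n` is `m_n = inf ‖p‖_{[0,1]}^{1/n}` over the nonzero integer polynomials `p` of
  degree at most `n`.

We exhibit an integer polynomial of degree at most `60004` with `‖p‖_{[0,1]} ≤ 0.422829^60004`;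
hence `t_ℤ([0,1]) ≤ 0.422829`.
-/

open Polynomial Filter Topology

namespace Pool.Agent.Results.MP_0703d8_nt.UpperBound

open H27Cheb

theorem result :
    (∃ p : ℤ[X], p ≠ 0 ∧ p.natDegree ≤ 60004 ∧ supNorm01 p ≤ (0.422829 : ℝ) ^ 60004) ∧
    mZ 60004 ≤ 0.422829 ∧
    ∃ t : ℝ, Tendsto mZ atTop (𝓝 t) ∧ t ≤ 0.422829 ∧ ∀ n : ℕ, 1 ≤ n → t ≤ mZ n := by
  have e : ((ucert1.cn : ℝ) / ucert1.cd) = 0.422829 := by
    rw [show ucert1.cn = 422829 from rfl, show ucert1.cd = 1000000 from rfl]; norm_num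
  have h1 : ∃ p : ℤ[X], p ≠ 0 ∧ p.natDegree ≤ 60004 ∧ supNorm01 p ≤ (0.422829 : ℝ) ^ 60004 := by
    obtain ⟨p, hp, hd, hn⟩ := ucert1.exists_poly ucert1_check1 ucert1_check2 ucert1_check3
    rw [e, ucert1_deg] at hn
    rw [ucert1_deg] at hd
    exact ⟨p, hp, hd, hn⟩
  have h2 : mZ 60004 ≤ 0.422829 := by
    have := ucert1.mZ_le ucert1_check1 ucert1_check2 ucert1_check3
    rw [e, ucert1_deg] at this
    exact this
  have h3 : ∀ n : ℕ, 1 ≤ n → (422309 / 1000000 : ℝ) ≤ mZ n := by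
    intro n hn
    exact le_mZ_of_pow (by norm_num) (fun p hp k hk => lower13 p hp k hk) hn
  obtain ⟨t, ht, -, hle⟩ := exists_tendsto_mZ (by norm_num) h3
  exact ⟨h1, h2, t, ht, (hle 60004 (by norm_num)).trans h2, hle⟩

end Pool.Agent.Results.MP_0703d8_nt.UpperBound
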